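import Pool.Agent.Helper3.TP.St

/-!
# Module ALPHA of project TP: the gcd as a short signed sum
-/

set_option autoImplicit false

open Finset
open Helper3.TL Helper3.TP

namespace Helper62.TP

private lemma bez (S : Finset ℕ) : ∃ β : ℕ → ℤ, ∑ x ∈ S, β x * (x : ℤ) = ((S.gcd id : ℕ) : ℤ) := by
  classical
  induction S using Finset.induction_on with
  | empty => exact ⟨fun _ => 0, by simp⟩
  | insert a s ha ih =>
    obtain ⟨β, hβ⟩ := ih
    have h1 := Nat.gcd_eq_gcd_ab a (s.gcd id)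
    refine ⟨fun x => if x = a then Nat.gcdA a (s.gcd id) else Nat.gcdB a (s.gcd id) * β x, ?_⟩
    rw [Finset.sum_insert ha, Finset.gcd_insert]
    have h2 : ∑ x ∈ s, (if x = a then Nat.gcdA a (s.gcd id) else Nat.gcdB a (s.gcd id) * β x) * (x : ℤ)
        = Nat.gcdB a (s.gcd id) * ∑ x ∈ s, β x * (x : ℤ) := by
      rw [Finset.mul_sum]
      refine Finset.sum_congr rfl fun x hx => ?_
      have hxa : x ≠ a := fun h => ha (h ▸ hx)
      rw [if_neg hxa]
      ring
    show (if a = a then Nat.gcdA a (s.gcd id) else Nat.gcdB a (s.gcd id) * β a) * (a : ℤ) +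
      ∑ x ∈ s, (if x = a then Nat.gcdA a (s.gcd id) else Nat.gcdB a (s.gcd id) * β x) * (x : ℤ) = _
    rw [h2, hβ, if_pos rfl]
    have h3 : (GCDMonoid.gcd (id a) (s.gcd id) : ℕ) = Nat.gcd a (s.gcd id) := rfl
    rw [h3, h1]
    ring

private lemma lst (S : Finset ℕ) (α : ℕ → ℤ) : ∃ l : List (ℕ × Bool),
    l.length = ∑ x ∈ S, (α x).natAbs ∧ (∀ p ∈ l, p.1 ∈ S) ∧
      (l.map (fun p => sg p.2 * (p.1 : ℤ))).sum = ∑ x ∈ S, α x * (x : ℤ) := by
  classical
  induction S using Finset.induction_on with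
  | empty => exact ⟨[], by simp⟩
  | insert a s ha ih =>
    obtain ⟨l, h1, h2, h3⟩ := ih
    refine ⟨List.replicate (α a).natAbs (a, decide (0 ≤ α a)) ++ l, ?_, ?_, ?_⟩
    · rw [List.length_append, List.length_replicate, h1, Finset.sum_insert ha]
    · intro p hp
      rcases List.mem_append.mp hp with hp | hp
      · rw [List.eq_of_mem_replicate hp]
        exact Finset.mem_insert_self _ _
      · exact Finset.mem_insert_of_mem (h2 p hp)
    · rw [List.map_append, List.sum_append, h3, Finset.sum_insert ha, List.map_replicate,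
        List.sum_replicate]
      congr 1
      by_cases h : 0 ≤ α a
      · have h4 : ((α a).natAbs : ℤ) = α a := Int.natAbs_of_nonneg h
        simp only [decide_eq_true h, sg, nsmul_eq_mul, if_true]
        rw [h4]
        ring
      · have h4 : ((α a).natAbs : ℤ) = -α a := by
          rw [Int.ofNat_natAbs_of_nonpos (by omega)]
        simp only [decide_eq_false h, sg, nsmul_eq_mul]
        rw [h4]
        simp

theorem hAlpha : PAlpha := by
  classical
  intro b S g hg h1 h2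
  have hne : S.Nonempty := by
    by_contra hS
    rw [Finset.not_nonempty_iff_eq_empty] at hS
    have := h2 (2 * g) (by omega) (by simp [hS])
    have := Nat.le_of_dvd (by omega) this
    omega
  obtain ⟨x₀, hx₀⟩ := hne
  obtain ⟨hx1, hx2, hx3⟩ := h1 x₀ hx₀
  have hd : S.gcd id = g := by
    have ha : g ∣ S.gcd id := Finset.dvd_gcd fun x hx => (h1 x hx).2.2
    have hb : ∀ x ∈ S, S.gcd id ∣ x := fun x hx => Finset.gcd_dvd hx
    have hc : 1 ≤ S.gcd id := by
      rcases Nat.eq_zero_or_pos (S.gcd id) with h | h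
      · have := hb x₀ hx₀
        rw [h, zero_dvd_iff] at this
        omega
      · exact h
    exact Nat.dvd_antisymm (h2 _ hc hb) ha
  obtain ⟨β, hβ⟩ := bez S
  rw [hd] at hβ
  obtain ⟨A, hA⟩ : ∃ A : ℤ, A = β x₀ + ∑ x ∈ S.erase x₀, (β x / (x₀ : ℤ)) * (x : ℤ) := ⟨_, rfl⟩
  obtain ⟨α, hα⟩ : ∃ α : ℕ → ℤ, α = fun x => if x = x₀ then A else β x % (x₀ : ℤ) := ⟨_, rfl⟩
  have hα0 : α x₀ = A := by rw [hα]; simp
  have hα1 : ∀ x ∈ S.erase x₀, α x = β x % (x₀ : ℤ) := by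
    intro x hx
    rw [hα]
    simp [Finset.ne_of_mem_erase hx]
  have hpos : (0 : ℤ) < (x₀ : ℤ) := by exact_mod_cast hx1
  have hsum : ∑ x ∈ S, α x * (x : ℤ) = (g : ℤ) := by
    rw [← hβ, ← Finset.add_sum_erase S _ hx₀, ← Finset.add_sum_erase S (fun x => β x * (x : ℤ)) hx₀,
      hα0, hA]
    have : ∑ x ∈ S.erase x₀, α x * (x : ℤ) = ∑ x ∈ S.erase x₀, β x * (x : ℤ) -
        (x₀ : ℤ) * ∑ x ∈ S.erase x₀, (β x / (x₀ : ℤ)) * (x : ℤ) := by
      rw [Finset.mul_sum, ← Finset.sum_sub_distrib]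
      refine Finset.sum_congr rfl fun x hx => ?_
      rw [hα1 x hx]
      have := Int.emod_add_mul_ediv (β x) (x₀ : ℤ)
      linear_combination (x : ℤ) * this
    rw [this]
    ring
  have hr : ∀ x ∈ S.erase x₀, 0 ≤ α x ∧ α x < x₀ := by
    intro x hx
    rw [hα1 x hx]
    exact ⟨Int.emod_nonneg _ hpos.ne', Int.emod_lt_of_pos _ hpos⟩
  have hcard : (S.erase x₀).card ≤ b := by
    have : S ⊆ Finset.Icc 1 b := fun x hx => Finset.mem_Icc.mpr ⟨(h1 x hx).1, (h1 x hx).2.1⟩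
    have h := Finset.card_le_card this
    rw [Nat.card_Icc] at h
    have := Finset.card_erase_le (s := S) (a := x₀)
    omega
  have hcard' : ((S.erase x₀).card : ℤ) ≤ b := by exact_mod_cast hcard
  have hb0 : (0 : ℤ) ≤ b := Int.natCast_nonneg b
  have hxb : (x₀ : ℤ) ≤ b := by exact_mod_cast hx2
  -- the sum of the coefficients
  have hs1 : ∑ x ∈ S.erase x₀, α x ≤ (b : ℤ) * b := by
    calc ∑ x ∈ S.erase x₀, α x ≤ ∑ x ∈ S.erase x₀, (b : ℤ) :=
          Finset.sum_le_sum fun x hx => by have := (hr x hx).2; omega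
      _ = (S.erase x₀).card * (b : ℤ) := by rw [Finset.sum_const, nsmul_eq_mul]
      _ ≤ (b : ℤ) * b := mul_le_mul_of_nonneg_right hcard' hb0
  have hs2 : ∑ x ∈ S.erase x₀, α x * (x : ℤ) ≤ (x₀ : ℤ) * ((b : ℤ) * b) := by
    calc ∑ x ∈ S.erase x₀, α x * (x : ℤ) ≤ ∑ x ∈ S.erase x₀, (x₀ : ℤ) * (b : ℤ) :=
          Finset.sum_le_sum fun x hx => by
            have hxb' : (x : ℤ) ≤ b := by exact_mod_cast (h1 x (Finset.mem_of_mem_erase hx)).2.1
            have := hr x hx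
            exact mul_le_mul this.2.le hxb' (Int.natCast_nonneg x) hpos.le
      _ = (S.erase x₀).card * ((x₀ : ℤ) * (b : ℤ)) := by rw [Finset.sum_const, nsmul_eq_mul]
      _ ≤ (b : ℤ) * ((x₀ : ℤ) * b) := mul_le_mul_of_nonneg_right hcard' (mul_nonneg hpos.le hb0)
      _ = (x₀ : ℤ) * ((b : ℤ) * b) := by ring
  have hs3 : 0 ≤ ∑ x ∈ S.erase x₀, α x * (x : ℤ) :=
    Finset.sum_nonneg fun x hx => mul_nonneg (hr x hx).1 (Int.natCast_nonneg x)
  have hgx : (g : ℤ) ≤ x₀ := by exact_mod_cast Nat.le_of_dvd hx1 hx3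
  have hg0 : (0 : ℤ) ≤ g := Int.natCast_nonneg g
  have hAx : A * (x₀ : ℤ) = g - ∑ x ∈ S.erase x₀, α x * (x : ℤ) := by
    have := Finset.add_sum_erase S (fun x => α x * (x : ℤ)) hx₀
    rw [hsum] at this
    simp only [hα0] at this
    linarith
  have hA1 : A ≤ 1 := by
    by_contra hc
    have : (x₀ : ℤ) * 2 ≤ A * x₀ := by nlinarith
    linarith
  have hA2 : -((b : ℤ) * b) ≤ A := by
    by_contra hc
    have h : A ≤ -((b : ℤ) * b) - 1 := by omega
    have : A * (x₀ : ℤ) ≤ (-((b : ℤ) * b) - 1) * x₀ := mul_le_mul_of_nonneg_right h hpos.le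
    have e : (-((b : ℤ) * b) - 1) * (x₀ : ℤ) = -((x₀ : ℤ) * ((b : ℤ) * b)) - x₀ := by ring
    rw [e] at this
    linarith
  have hbb : (1 : ℤ) ≤ b := by omega
  have hAabs : ((A.natAbs : ℕ) : ℤ) ≤ (b : ℤ) * b := by
    rw [Int.natCast_natAbs, abs_le]
    refine ⟨hA2, hA1.trans (by nlinarith)⟩
  obtain ⟨l, hl1, hl2, hl3⟩ := lst S α
  refine ⟨l, ?_, hl2, by rw [hl3, hsum]⟩
  have hlen : (l.length : ℤ) ≤ (b : ℤ) * b + (b : ℤ) * b := by
    rw [hl1]
    push_cast
    rw [← Finset.add_sum_erase S _ hx₀, hα0]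
    have e : ∑ x ∈ S.erase x₀, |α x| = ∑ x ∈ S.erase x₀, α x :=
      Finset.sum_congr rfl fun x hx => abs_of_nonneg (hr x hx).1
    rw [e]
    rw [Int.natCast_natAbs] at hAabs
    linarith
  have h3 : (b : ℤ) * b + (b : ℤ) * b ≤ 3 * (b : ℤ) ^ 3 := by nlinarith [mul_nonneg hb0 hb0]
  have : (l.length : ℤ) ≤ ((3 * b ^ 3 : ℕ) : ℤ) := by push_cast; linarith
  exact_mod_cast this

end Helper62.TP
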